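import Mathlib
import Pool.Agent.H39.SP.Half

/-!
# Span and semi-span of simple closed curves

For every `t` in `[1/2, 1]` there is a simple closed curve with span `t` and semi-span `1`.
-/

set_option autoImplicit false

namespace Pool.Agent.Results.MP_58de27_gt.SpanRatio

/-- `C` is a simple closed curve: a metric space homeomorphic to the unit circle. -/
def IsSimpleClosedCurve (C : Type) [MetricSpace C] : Prop :=
  Nonempty (C ≃ₜ Metric.sphere (0 : ℂ) 1)

/-- The span of `X`: the supremum of all `α ≥ 0` for which some connected set `Z` of pairs with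
`p₁(Z) = p₂(Z)` has all its pairs at distance at least `α`. -/
noncomputable def span (X : Type) [MetricSpace X] : ℝ :=
  sSup {α : ℝ | 0 ≤ α ∧ ∃ Z : Set (X × X), IsConnected Z ∧
    Prod.fst '' Z = Prod.snd '' Z ∧ ∀ p ∈ Z, α ≤ dist p.1 p.2}

/-- The semi-span of `X`: the same with `p₁(Z) ⊆ p₂(Z)`. -/
noncomputable def semiSpan (X : Type) [MetricSpace X] : ℝ :=
  sSup {α : ℝ | 0 ≤ α ∧ ∃ Z : Set (X × X), IsConnected Z ∧
    Prod.fst '' Z ⊆ Prod.snd '' Z ∧ ∀ p ∈ Z, α ≤ dist p.1 p.2}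

/-- The surjective span of `X`: the same with `p₁(Z) = p₂(Z) = X`. -/
noncomputable def surjectiveSpan (X : Type) [MetricSpace X] : ℝ :=
  sSup {α : ℝ | 0 ≤ α ∧ ∃ Z : Set (X × X), IsConnected Z ∧
    Prod.fst '' Z = Set.univ ∧ Prod.snd '' Z = Set.univ ∧ ∀ p ∈ Z, α ≤ dist p.1 p.2}

open Pool.Agent.S13204 Pool.Agent.H39.SP in
/-- For every `t` in `[1/2, 1]` there is a simple closed curve `C` with
`σ*(C) = σ(C) = t` and `σ₀(C) = diam C = 1`. -/
theorem result (t : ℝ) (h1 : 1/2 ≤ t) (h2 : t ≤ 1) :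
    ∃ (C : Type) (_ : MetricSpace C), IsSimpleClosedCurve C ∧ surjectiveSpan C = t ∧
      span C = t ∧ semiSpan C = 1 ∧ Metric.diam (Set.univ : Set C) = 1 := by
  let _ := metricC h1 h2
  obtain ⟨e, he⟩ := exists_homeo h1 h2
  have hdist : ∀ p : Pool.Agent.H39.SP.C × Pool.Agent.H39.SP.C,
      dist p.1 p.2 = f t (D (e.symm p.1) (e.symm p.2)) := by
    intro p
    rw [← e.apply_symm_apply p.1, ← e.apply_symm_apply p.2, he, e.symm_apply_apply,
      e.symm_apply_apply]
    rfl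
  have hle1 : ∀ p : Pool.Agent.H39.SP.C × Pool.Agent.H39.SP.C, dist p.1 p.2 ≤ 1 := by
    intro p
    rw [hdist]
    exact E_le_one h1 h2 _ _
  -- upper bound for the span
  have hup : ∀ α : ℝ, ∀ Z : Set (Pool.Agent.H39.SP.C × Pool.Agent.H39.SP.C), IsConnected Z →
      Prod.fst '' Z = Prod.snd '' Z → (∀ p ∈ Z, α ≤ dist p.1 p.2) → α ≤ t := by
    intro α Z hZ hproj hd
    by_contra hα
    push Not at hα
    have hFc : Continuous (Prod.map e.symm e.symm) := e.symm.continuous.prodMap e.symm.continuous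
    have e1 : Prod.fst '' (Prod.map e.symm e.symm '' Z) = e.symm '' (Prod.fst '' Z) := by
      rw [Set.image_image, Set.image_image]
      rfl
    have e2 : Prod.snd '' (Prod.map e.symm e.symm '' Z) = e.symm '' (Prod.snd '' Z) := by
      rw [Set.image_image, Set.image_image]
      rfl
    refine no_span' (Prod.map e.symm e.symm '' Z) (hZ.image _ hFc.continuousOn)
      (by rw [e1, e2, hproj]) ?_
    rintro _ ⟨p, hp, rfl⟩
    by_contra hcon
    push Not at hcon
    have k1 := f_mono h1 h2 hcon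
    have k2 := hd p hp
    rw [f_half] at k1
    rw [hdist] at k2
    have k3 : f t (D (e.symm p.1) (e.symm p.2)) ≤ t := k1
    linarith
  -- the antipodal pairs
  have hA : ∃ Z : Set (Pool.Agent.H39.SP.C × Pool.Agent.H39.SP.C), IsConnected Z ∧
      Prod.fst '' Z = Set.univ ∧ Prod.snd '' Z = Set.univ ∧ ∀ p ∈ Z, t ≤ dist p.1 p.2 := by
    refine ⟨Set.range fun x : T => (e x, e (x + ((1/2 : ℝ) : T))), ?_, ?_, ?_, ?_⟩
    · exact isConnected_range (by fun_prop)
    · rw [← Set.range_comp]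
      exact e.surjective.range_eq
    · rw [← Set.range_comp]
      have : (Prod.snd ∘ fun x : T => (e x, e (x + ((1/2 : ℝ) : T)))) =
          e ∘ fun x : T => x + ((1/2 : ℝ) : T) := rfl
      have h3 : Set.range (fun x : T => x + ((1/2 : ℝ) : T)) = Set.univ :=
        (Equiv.addRight ((1/2 : ℝ) : T)).surjective.range_eq
      rw [this, Set.range_comp, h3, Set.image_univ, e.surjective.range_eq]
    · rintro _ ⟨x, rfl⟩
      rw [hdist]
      show t ≤ f t (D (e.symm (e x)) (e.symm (e (x + ((1/2 : ℝ) : T)))))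
      rw [e.symm_apply_apply, e.symm_apply_apply]
      have := f_mono h1 h2 (half_le_D x)
      rwa [f_half] at this
  -- the pairs of the semi-span
  have hW : ∃ Z : Set (Pool.Agent.H39.SP.C × Pool.Agent.H39.SP.C), IsConnected Z ∧
      Prod.fst '' Z ⊆ Prod.snd '' Z ∧ ∀ p ∈ Z, 1 ≤ dist p.1 p.2 := by
    refine ⟨(fun p : T × T => (e p.2, e p.1)) '' W, ?_, ?_, ?_⟩
    · exact W_conn.image _ (by fun_prop)
    · have e1 : Prod.snd '' ((fun p : T × T => (e p.2, e p.1)) '' W) = Set.univ := by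
        rw [Set.image_image]
        have : (fun p : T × T => ((e p.2, e p.1) : Pool.Agent.H39.SP.C ×
            Pool.Agent.H39.SP.C).2) '' W = e '' (Prod.fst '' W) := by
          rw [Set.image_image]
        rw [this, W_fst, Set.image_univ, e.surjective.range_eq]
      rw [e1]
      exact Set.subset_univ _
    · rintro _ ⟨p, hp, rfl⟩
      rw [hdist]
      show 1 ≤ f t (D (e.symm (e p.2)) (e.symm (e p.1)))
      rw [e.symm_apply_apply, e.symm_apply_apply, D_comm]
      have := f_mono h1 h2 (W_dist p hp)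
      rwa [f_one h1] at this
  have ht0 : 0 ≤ t := by linarith
  refine ⟨Pool.Agent.H39.SP.C, inferInstance, ?_, ?_, ?_, ?_, ?_⟩
  · exact ⟨e.symm.trans ((AddCircle.homeomorphCircle one_ne_zero).trans (Homeomorph.refl _))⟩
  · obtain ⟨Z, hZ, hf, hs, hd⟩ := hA
    refine IsGreatest.csSup_eq ⟨⟨ht0, Z, hZ, hf, hs, hd⟩, ?_⟩
    rintro α ⟨-, Z, hZ, hf, hs, hd⟩
    exact hup α Z hZ (by rw [hf, hs]) hd
  · obtain ⟨Z, hZ, hf, hs, hd⟩ := hA
    refine IsGreatest.csSup_eq ⟨⟨ht0, Z, hZ, by rw [hf, hs], hd⟩, ?_⟩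
    rintro α ⟨-, Z, hZ, hf, hd⟩
    exact hup α Z hZ hf hd
  · obtain ⟨Z, hZ, hf, hd⟩ := hW
    refine IsGreatest.csSup_eq ⟨⟨zero_le_one, Z, hZ, hf, hd⟩, ?_⟩
    rintro α ⟨-, Z, hZ, hf, hd⟩
    obtain ⟨p, hp⟩ := hZ.nonempty
    exact (hd p hp).trans (hle1 p)
  · apply le_antisymm
    · exact Metric.diam_le_of_forall_dist_le zero_le_one fun x _ y _ => hle1 (x, y)
    · obtain ⟨Z, hZ, hf, hd⟩ := hW
      obtain ⟨p, hp⟩ := hZ.nonempty
      refine (hd p hp).trans (Metric.dist_le_diam_of_mem ?_ (Set.mem_univ _) (Set.mem_univ _))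
      refine Metric.isBounded_iff.2 ⟨1, fun x _ y _ => hle1 (x, y)⟩

end Pool.Agent.Results.MP_58de27_gt.SpanRatio
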